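import Pool.Agent.H92.EM.TA
import Pool.Agent.H95.EHD.RPD

/-!
Row MSC of emd_modules: traces of pull-backs by matrices near the identity.
-/

namespace Pool.Agent.H26.EM

open scoped BigOperators ComplexConjugate ContDiff ComplexOrder
open MeasureTheory Pool.Agent.H92.EQ Pool.Agent.H92.EHD Pool.Agent.H92.EM Pool.Agent.H95.EHD

/-- the part of a tensor on the multi-indices without `b` -/
noncomputable def cutT {N s : ℕ} (b : Fin N) (T : (Fin s → Fin N) → (Fin s → Fin N) → ℂ) :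
    (Fin s → Fin N) → (Fin s → Fin N) → ℂ := fun K L =>
  (if ∀ l, K l ≠ b then 1 else 0) * (if ∀ l, L l ≠ b then 1 else 0) * T K L

theorem cutT_psd {N s : ℕ} (b : Fin N) (T : (Fin s → Fin N) → (Fin s → Fin N) → ℂ)
    (hT : Psd T) : Psd (cutT b T) := by
  intro c
  have h := hT fun K => (if ∀ l, K l ≠ b then 1 else 0) * c K
  refine le_of_le_of_eq h ?_
  refine Finset.sum_congr rfl fun K _ => Finset.sum_congr rfl fun L _ => ?_
  unfold cutT
  by_cases hK : ∀ l, K l ≠ b
  · by_cases hL : ∀ l, L l ≠ b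
    · simp only [if_pos hK, if_pos hL, one_mul]
    · simp only [if_pos hK, if_neg hL, zero_mul, map_zero, mul_zero]
  · simp only [if_neg hK, zero_mul, mul_zero]

theorem cutT_trF {N s : ℕ} (b : Fin N) (T : (Fin s → Fin N) → (Fin s → Fin N) → ℂ) :
    trF (cutT b T) = trO b T := by
  unfold trF trO cutT
  refine Finset.sum_congr rfl fun K _ => ?_
  by_cases hK : ∀ l, K l ≠ b
  · simp only [if_pos hK, one_mul]
  · simp only [if_neg hK, zero_mul, Complex.zero_re]

theorem pb_cut {N s : ℕ} (b : Fin N) (A : Fin N → Fin N → ℂ)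
    (T : (Fin s → Fin N) → (Fin s → Fin N) → ℂ) (hA : ∀ j, j ≠ b → A b j = 0)
    (I : Fin s → Fin N) (hI : ∀ l, I l ≠ b) : pb A T I I = pb A (cutT b T) I I := by
  have hz : ∀ K : Fin s → Fin N, ¬ (∀ l, K l ≠ b) → ∏ l, A (K l) (I l) = 0 := by
    intro K hK
    push Not at hK
    obtain ⟨l, hl⟩ := hK
    refine Finset.prod_eq_zero (Finset.mem_univ l) ?_
    rw [hl]
    exact hA _ (hI l)
  unfold pb
  refine Finset.sum_congr rfl fun K _ => Finset.sum_congr rfl fun L _ => ?_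
  unfold cutT
  by_cases hK : ∀ l, K l ≠ b
  · by_cases hL : ∀ l, L l ≠ b
    · simp only [if_pos hK, if_pos hL, one_mul]
    · have h1 : ∏ l, conj (A (L l) (I l)) = 0 := by
        rw [← map_prod, hz L hL, map_zero]
      rw [h1, mul_zero, mul_zero]
  · rw [hz K hK]
    simp only [mul_zero, zero_mul]

theorem pb_cut_nonneg {N s : ℕ} (A : Fin N → Fin N → ℂ)
    (T : (Fin s → Fin N) → (Fin s → Fin N) → ℂ) (hT : Psd T) (I : Fin s → Fin N) :
    0 ≤ (pb A T I I).re :=
  (Complex.le_def.1 (psd_diag (pb A T) (pb_psd A T hT) I)).1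

theorem pf_MSC (h13 : T_D13) : T_MSC := by
  intro k s
  refine ⟨(4 * ((k + 1 : ℕ) : ℝ) ^ 2) ^ s, by positivity, ?_⟩
  intro S A y hS hA
  set T := S (A.mulVec y) with hTdef
  have hp : pull (lin A) S y = pb A T := by
    obtain ⟨h1, h2, -, -⟩ := h13 (k + 1) A A y
    funext I J
    unfold pull pb
    rw [h1, h2]
  have hT0 : ∀ (W : (Fin s → Fin (k + 1)) → (Fin s → Fin (k + 1)) → ℂ), Psd W →
      0 ≤ trF W := fun W hW => Finset.sum_nonneg fun M _ =>
    (Complex.le_def.1 (psd_diag W hW M)).1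
  have hsum0 : 0 ≤ ∑ i, nsq (A i) :=
    Finset.sum_nonneg fun i _ => Finset.sum_nonneg fun j _ => sq_nonneg _
  have hsum : ∑ i, nsq (A i) ≤ 4 * ((k + 1 : ℕ) : ℝ) ^ 2 := by
    have h1 : ∀ i j, ‖A i j‖ ≤ 2 := by
      intro i j
      have h2 := hA i j
      have h3 : ‖(1 : Matrix (Fin (k + 1)) (Fin (k + 1)) ℂ) i j‖ ≤ 1 := by
        by_cases hij : i = j
        · rw [hij, Matrix.one_apply_eq, norm_one]
        · rw [Matrix.one_apply_ne hij, norm_zero]
          exact zero_le_one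
      have h4 : A i j = (A i j - (1 : Matrix (Fin (k + 1)) (Fin (k + 1)) ℂ) i j) +
          (1 : Matrix (Fin (k + 1)) (Fin (k + 1)) ℂ) i j := by ring
      rw [h4]
      refine le_trans (norm_add_le _ _) ?_
      linarith
    have h5 : ∀ i, nsq (A i) ≤ 4 * ((k + 1 : ℕ) : ℝ) := by
      intro i
      unfold nsq
      refine le_trans (Finset.sum_le_sum (g := fun _ => (4 : ℝ)) fun j _ => ?_) ?_
      · have := h1 i j
        have h0 := norm_nonneg (A i j)
        nlinarith
      · rw [Finset.sum_const, Finset.card_univ, Fintype.card_fin, nsmul_eq_mul, mul_comm]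
    refine le_trans (Finset.sum_le_sum (g := fun _ => 4 * ((k + 1 : ℕ) : ℝ)) fun i _ => h5 i) ?_
    rw [Finset.sum_const, Finset.card_univ, Fintype.card_fin, nsmul_eq_mul]
    apply le_of_eq
    ring
  have hpow : (∑ i, nsq (A i)) ^ s ≤ (4 * ((k + 1 : ℕ) : ℝ) ^ 2) ^ s :=
    pow_le_pow_left₀ hsum0 hsum s
  have hmain : ∀ (W : (Fin s → Fin (k + 1)) → (Fin s → Fin (k + 1)) → ℂ), Psd W →
      trF (pb A W) ≤ (4 * ((k + 1 : ℕ) : ℝ) ^ 2) ^ s * trF W := by
    intro W hW
    refine le_trans (pb_trF A W hW) ?_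
    rw [mul_comm]
    exact mul_le_mul_of_nonneg_right hpow (hT0 W hW)
  rw [hp]
  refine ⟨hT0 _ (pb_psd A T hS), hmain T hS, fun b => ⟨?_, fun hb => ?_⟩⟩
  · unfold trO
    refine Finset.sum_nonneg fun I _ => ?_
    split_ifs
    · exact pb_cut_nonneg A T hS I
    · exact le_refl _
  · have h1 := hmain (cutT b T) (cutT_psd b T hS)
    rw [cutT_trF] at h1
    refine le_trans ?_ h1
    unfold trO trF
    refine Finset.sum_le_sum fun I _ => ?_
    by_cases hI : ∀ l, I l ≠ b
    · rw [if_pos hI, pb_cut b A T hb I hI]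
    · rw [if_neg hI]
      exact pb_cut_nonneg A (cutT b T) (cutT_psd b T hS) I

end Pool.Agent.H26.EM
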