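import Pool.Agent.H95.EM.MSD

/-!
Row MSE of emd_modules: the masses of the slabs.
-/

set_option autoImplicit false

namespace Pool.Agent.H26.EM

open scoped BigOperators ComplexConjugate ContDiff ComplexOrder
open MeasureTheory Pool.Agent.H92.EQ Pool.Agent.H92.EM
open Pool.Agent.H92.EHD (trF T_RTR)
open Pool.Agent.H95.EM (Shl meas_shl shl_nsq shl_ne shl_ell nsq_nonneg' nsq_pos' cont_nsq)

/-- the difference of the potentials -/
noncomputable def vd {k : ℕ} (b : Fin (k + 1)) (δ : ℝ) (z : Fin (k + 1) → ℂ) : ℝ :=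
  ell z - wH b δ z

theorem vd_eq {k : ℕ} (b : Fin (k + 1)) (δ : ℝ) (hδ : 0 < δ) (z : Fin (k + 1) → ℂ)
    (hz : z ≠ 0) : vd b δ z = -((1 / 2) * Real.log (‖z b‖ ^ 2 / nsq z + δ ^ 2)) := by
  have h1 := nsq_pos' hz
  have h2 : 0 < ‖z b‖ ^ 2 + δ ^ 2 * nsq z := by positivity
  have h3 : ‖z b‖ ^ 2 / nsq z + δ ^ 2 = (‖z b‖ ^ 2 + δ ^ 2 * nsq z) / nsq z := by
    field_simp
  rw [h3, Real.log_div h2.ne' h1.ne']
  unfold vd ell wH
  ring

theorem nsq_smul' {n : ℕ} (r : ℝ) (z : Fin n → ℂ) : nsq ((r : ℂ) • z) = r ^ 2 * nsq z := by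
  unfold nsq
  rw [Finset.mul_sum]
  refine Finset.sum_congr rfl fun i _ => ?_
  rw [Pi.smul_apply, smul_eq_mul, norm_mul, Complex.norm_real, Real.norm_eq_abs, mul_pow, sq_abs]

theorem vd_hom {k : ℕ} (b : Fin (k + 1)) (δ : ℝ) (hδ : 0 < δ) (r : ℝ) (hr : 0 < r)
    (z : Fin (k + 1) → ℂ) (hz : z ≠ 0) : vd b δ ((r : ℂ) • z) = vd b δ z := by
  have hrz : (r : ℂ) • z ≠ 0 := smul_ne_zero (by exact_mod_cast hr.ne') hz
  rw [vd_eq b δ hδ _ hrz, vd_eq b δ hδ z hz, nsq_smul']
  have h1 := nsq_pos' hz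
  have h2 : ‖((r : ℂ) • z) b‖ ^ 2 = r ^ 2 * ‖z b‖ ^ 2 := by
    rw [Pi.smul_apply, smul_eq_mul, norm_mul, Complex.norm_real, Real.norm_eq_abs, mul_pow,
      sq_abs]
  rw [h2, mul_div_mul_left _ _ (by positivity)]

theorem vd_cont {k : ℕ} (b : Fin (k + 1)) (δ : ℝ) (hδ : 0 < δ) :
    ContinuousOn (fun z => vd b δ z + 3) ({0}ᶜ : Set (Fin (k + 1) → ℂ)) := by
  have hn : Continuous (nsq : (Fin (k + 1) → ℂ) → ℝ) := cont_nsq
  have h1 : ContinuousOn (fun z : Fin (k + 1) → ℂ => ell z) {0}ᶜ := by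
    unfold ell
    refine continuousOn_const.mul (ContinuousOn.log hn.continuousOn fun z hz => ?_)
    exact (nsq_pos' hz).ne'
  have h2 : ContinuousOn (fun z : Fin (k + 1) → ℂ => wH b δ z) {0}ᶜ := by
    unfold wH
    refine continuousOn_const.mul (ContinuousOn.log ?_ fun z hz => ?_)
    · have : Continuous fun z : Fin (k + 1) → ℂ => ‖z b‖ ^ 2 + δ ^ 2 * nsq z := by fun_prop
      exact this.continuousOn
    · have h3 := nsq_pos' hz
      have : 0 < ‖z b‖ ^ 2 + δ ^ 2 * nsq z := by positivity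
      exact this.ne'
  exact (h1.sub h2).add continuousOn_const

theorem vd_ge {k : ℕ} (b : Fin (k + 1)) (δ : ℝ) (hδ : 0 < δ) (hδ1 : δ ≤ 1)
    (z : Fin (k + 1) → ℂ) (hz : z ≠ 0) : 0 ≤ vd b δ z + 3 := by
  rw [vd_eq b δ hδ z hz]
  have h1 := nsq_pos' hz
  have h2 : ‖z b‖ ^ 2 ≤ nsq z :=
    Finset.single_le_sum (f := fun i => ‖z i‖ ^ 2) (fun _ _ => by positivity) (Finset.mem_univ b)
  have h3 : ‖z b‖ ^ 2 / nsq z ≤ 1 := (div_le_one h1).2 h2
  have h4 : δ ^ 2 ≤ 1 := pow_le_one₀ hδ.le hδ1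
  have h5 : 0 < ‖z b‖ ^ 2 / nsq z + δ ^ 2 := by positivity
  have h6 : Real.log (‖z b‖ ^ 2 / nsq z + δ ^ 2) ≤ 1 := by
    have := Real.log_le_sub_one_of_pos h5
    linarith
  linarith

/-- on the slab number `l` -/
theorem vd_slab {k : ℕ} (b : Fin (k + 1)) (L l : ℕ) (hl : l < L) (z : Fin (k + 1) → ℂ)
    (hz : z ∈ Shl (k + 1)) (hb : ‖z b‖ ≤ 2 * (1 / 2) ^ l) :
    (l : ℝ) + 1 ≤ 2 * (vd b ((1 / 2) ^ (L + 2)) z + 3) := by
  have hz0 := shl_ne hz
  obtain ⟨h1, _⟩ := shl_nsq hz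
  have h0 : 0 < nsq z := by linarith
  rw [vd_eq b _ (by positivity) z hz0]
  set x : ℝ := (1 / 2 : ℝ) ^ l with hx
  have hx0 : 0 < x := by positivity
  have h2 : ‖z b‖ ^ 2 / nsq z ≤ 16 * x ^ 2 := by
    rw [div_le_iff₀ h0]
    have h3 : ‖z b‖ ^ 2 ≤ (2 * x) ^ 2 := pow_le_pow_left₀ (norm_nonneg _) hb 2
    nlinarith [sq_nonneg x]
  have h4 : ((1 / 2 : ℝ) ^ (L + 2)) ^ 2 ≤ x ^ 2 := by
    refine pow_le_pow_left₀ (by positivity) ?_ 2
    exact pow_le_pow_of_le_one (by norm_num) (by norm_num) (by omega)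
  have h5 : 0 < ‖z b‖ ^ 2 / nsq z + ((1 / 2 : ℝ) ^ (L + 2)) ^ 2 := by positivity
  have h6 : Real.log (‖z b‖ ^ 2 / nsq z + ((1 / 2 : ℝ) ^ (L + 2)) ^ 2) ≤
      Real.log (17 * x ^ 2) := Real.log_le_log h5 (by linarith)
  have h7 : Real.log (17 * x ^ 2) = Real.log 17 - 2 * (l * Real.log 2) := by
    rw [Real.log_mul (by norm_num) (by positivity), Real.log_pow, hx, Real.log_pow, one_div,
      Real.log_inv]
    push_cast
    ring
  have h8 : Real.log 17 ≤ 4 := by
    have e1 : Real.log 17 ≤ Real.log 32 := Real.log_le_log (by norm_num) (by norm_num)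
    have e2 : Real.log 32 = 5 * Real.log 2 := by
      rw [show (32 : ℝ) = 2 ^ 5 by norm_num, Real.log_pow]
      norm_num
    have := Real.log_two_lt_d9
    linarith
  have h9 : (1 / 2 : ℝ) ≤ Real.log 2 := by
    have := Real.log_two_gt_d9
    linarith
  have h10 : (l : ℝ) * (1 / 2) ≤ l * Real.log 2 := by gcongr
  rw [h7] at h6
  linarith

/-- at most four slabs contain a point -/
theorem slab_card (t : ℝ) (L : ℕ) (P : ℕ → Prop) [DecidablePred P]
    (hP : ∀ l, P l → (1 / 2 : ℝ) ^ (l + 2) ≤ t ∧ t ≤ 2 * (1 / 2) ^ l) :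
    ((Finset.range L).filter P).card ≤ 4 := by
  by_cases hne : ((Finset.range L).filter P).Nonempty
  · set l0 := ((Finset.range L).filter P).min' hne with hl0
    have hm : l0 ∈ (Finset.range L).filter P := Finset.min'_mem _ hne
    have h0 := (hP l0 (Finset.mem_filter.1 hm).2).1
    have hsub : (Finset.range L).filter P ⊆ Finset.Icc l0 (l0 + 3) := by
      intro l hl
      have h1 : l0 ≤ l := Finset.min'_le _ l hl
      refine Finset.mem_Icc.2 ⟨h1, ?_⟩
      by_contra hcon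
      have h2 : l0 + 4 ≤ l := by omega
      have h3 := (hP l (Finset.mem_filter.1 hl).2).2
      have h4 : (1 / 2 : ℝ) ^ l ≤ (1 / 2) ^ (l0 + 4) :=
        pow_le_pow_of_le_one (by norm_num) (by norm_num) h2
      have h5 : (1 / 2 : ℝ) ^ (l0 + 4) = (1 / 2) ^ (l0 + 2) * (1 / 4) := by
        rw [show l0 + 4 = (l0 + 2) + 2 by ring, pow_add]
        norm_num
      have h6 : 0 < (1 / 2 : ℝ) ^ (l0 + 2) := by positivity
      linarith
    calc _ ≤ (Finset.Icc l0 (l0 + 3)).card := Finset.card_le_card hsub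
      _ = 4 := by rw [Nat.card_Icc]; omega
  · rw [Finset.not_nonempty_iff_eq_empty.1 hne]
    simp

theorem pf_MSE (hRTR : T_RTR) (hS4 : T_S4) (hS5 : T_S5) (hP1 : T_P1) (hP3 : T_P3)
    (hL3 : T_L3) : T_MSE := by
  intro m k s q hk
  obtain ⟨C0, hC0, hR⟩ := hRTR (k + 1) (s + 1) q (by omega)
  have hN : (s + 1) + q + 1 = k + 1 := by omega
  have hpot : Pot (ell : (Fin (k + 1) → ℂ) → ℝ) := (hL3 (k + 1)).1
  have hLH : LH 1 (ell : (Fin (k + 1) → ℂ) → ℝ) := ⟨hpot.smooth, fun l z hl hz => by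
    rw [hpot.loghom l z hl hz, one_mul]⟩
  have hlog : 0 < Real.log 2 := Real.log_pos (by norm_num)
  set mo : ℝ := mass q (om (k + 1) (s + 1)) with hmo
  set C1 : ℝ := C0 * 4 ^ (k + 1 - (s + 1)) with hC1
  have hC10 : 0 < C1 := by positivity
  refine ⟨8 * C1 * (2 * Real.log 2) * (3 * (|mo| + 1)), by positivity, ?_⟩
  intro S A hA hS hLM hms b L hb
  set δ : ℝ := (1 / 2) ^ (L + 2) with hδ
  have hδ0 : 0 < δ := by positivity
  have hδ1 : δ ≤ 1 := pow_le_one₀ (by norm_num) (by norm_num)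
  set ψ : (Fin (k + 1) → ℂ) → ℝ := Q S (fun _ : Fin q => ell) with hψ
  obtain ⟨hc, hh, _⟩ := hS5 (k + 1) (s + 1) q S (fun _ => ell) (fun _ => 1) hN hS (fun _ => hLH)
  have hψ0 : ∀ z, z ≠ 0 → 0 ≤ ψ z := (hP3 (k + 1) (s + 1) q S _ hN hS fun _ => hpot).1
  have hint0 := (hP1 (k + 1) (s + 1) q S (fun _ => ell) (fun _ => 1) hN hS (fun _ => hLH)).2
  set ψ' : (Fin (k + 1) → ℂ) → ℝ := fun z => (vd b δ z + 3) * ψ z with hψ'
  have hψ'c : ContinuousOn ψ' {0}ᶜ := (vd_cont b δ hδ0).mul hc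
  have hψ'm : Measurable ψ' := measurable_of_continuousOn_compl_singleton 0 hψ'c
  have hψ'0 : ∀ z, z ≠ 0 → 0 ≤ ψ' z := fun z hz =>
    mul_nonneg (vd_ge b δ hδ0 hδ1 z hz) (hψ0 z hz)
  have hψ'i : IntegrableOn ψ' {z : Fin (k + 1) → ℂ | 0 ≤ ell z ∧ ell z < 1} :=
    hint0 _ (vd_cont b δ hδ0)
  have hψh : ∀ (r : ℝ) (z : Fin (k + 1) → ℂ), 0 < r → z ≠ 0 →
      ψ' ((r : ℂ) • z) = (r ^ (2 * (k + 1)))⁻¹ * ψ' z := by
    intro r z hr hz
    have h := hh (r : ℂ) z (by exact_mod_cast hr.ne') hz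
    rw [Complex.norm_real, Real.norm_eq_abs, abs_of_pos hr] at h
    rw [hψ']
    simp only
    rw [vd_hom b δ hδ0 r hr z hz]
    have h' : ψ ((r : ℂ) • z) = (r ^ (2 * (k + 1)))⁻¹ * ψ z := h
    rw [h']
    ring
  set θ : ℝ → ℝ := Set.indicator (Set.Icc (Real.log (1 / 2)) (Real.log 2)) fun _ => 1 with hθ
  have hθm : Measurable θ := measurable_const.indicator measurableSet_Icc
  have hθi : Integrable θ := by
    rw [hθ, integrable_indicator_iff measurableSet_Icc]
    exact integrableOn_const (by simp)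
  have hθv : ∫ t, θ t = 2 * Real.log 2 := by
    rw [hθ, integral_indicator measurableSet_Icc]
    simp only [integral_const, MeasurableSet.univ, measureReal_restrict_apply, Set.univ_inter,
      smul_eq_mul, mul_one]
    rw [Real.volume_real_Icc_of_le (Real.log_le_log (by norm_num) (by norm_num)), one_div,
      Real.log_inv]
    ring
  obtain ⟨hint, hval⟩ := hS4 (k + 1) ψ' (fun _ => 0) 1 θ (by omega) one_pos hψ'm
    measurable_const hψ'i hψh (fun _ _ _ _ => rfl) hθm hθi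
  -- the value
  have hI : Iint ψ' ≤ (A + 3) * mo := by
    have e1 : Iint ψ' = pair (vd b δ) S (fun _ : Fin q => ell) + 3 * mass q S := by
      unfold mass pair Iint
      rw [hψ', ← integral_const_mul, ← integral_add]
      · refine integral_congr_ae (Filter.Eventually.of_forall fun z => ?_)
        simp only
        ring
      · have := hint0 (fun z => vd b δ z) (by
          have h := (vd_cont b δ hδ0).sub (continuousOn_const (c := (3 : ℝ)))
          refine h.congr fun z _ => ?_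
          simp)
        exact this
      · have := hint0 (fun _ => 1) continuousOn_const
        exact this.const_mul 3
    rw [e1, hms]
    have e2 := hLM b hb δ hδ0 hδ1
    have e3 : pair (vd b δ) S (fun _ : Fin q => ell) ≤ A * mo := e2
    calc pair (vd b δ) S (fun _ : Fin q => ell) + 3 * mo ≤ A * mo + 3 * mo :=
          add_le_add_left e3 _
      _ = (A + 3) * mo := by ring
  have hae : ∀ᵐ z : Fin (k + 1) → ℂ, z ≠ 0 := by
    rw [ae_iff]
    simp
  have hθ0 : ∀ t, 0 ≤ θ t := fun t => Set.indicator_nonneg (fun _ _ => zero_le_one) t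
  -- the slabs
  set R : ℕ → Set (Fin (k + 1) → ℂ) := fun l => {Y : Fin (k + 1) → ℂ |
    (1 / 2 ≤ nrm Y ∧ nrm Y ≤ 2) ∧ ((1 / 2 : ℝ) ^ (l + 2) ≤ ‖Y b‖ ∧ ‖Y b‖ ≤ 2 * (1 / 2) ^ l)}
    with hRdef
  have hRm : ∀ l, MeasurableSet (R l) := by
    intro l
    have hc : Measurable fun Y : Fin (k + 1) → ℂ => ‖Y b‖ := by fun_prop
    exact (meas_shl (N := k + 1)).inter ((measurableSet_le measurable_const hc).inter
      (measurableSet_le hc measurable_const))
  have hTm : Measurable fun Y => ENNReal.ofReal (trF (S Y)) :=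
    (Pool.Agent.H95.EM.meas_trF S hS).ennreal_ofReal
  have hpt : ∀ Y : Fin (k + 1) → ℂ, ∑ l ∈ Finset.range L, ENNReal.ofReal (l + 1) *
      (R l).indicator (fun Y => ENNReal.ofReal (trF (S Y))) Y ≤
      (Shl (k + 1)).indicator
        (fun Y => ENNReal.ofReal (8 * C1 * (ψ' Y * θ (1 * ell Y + 0)))) Y := by
    intro Y
    classical
    by_cases hY : Y ∈ Shl (k + 1)
    · rw [Set.indicator_of_mem hY]
      have hY0 := shl_ne hY
      have h1 := hR S hS Y hY0
      have h3 := (shl_nsq hY).2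
      have h4 := nsq_nonneg' Y
      have h5 := hψ0 Y hY0
      have h6 : trF (S Y) ≤ C1 * ψ Y := by
        refine h1.trans ?_
        rw [hC1]
        gcongr
      have h7 : θ (1 * ell Y + 0) = 1 := by
        rw [one_mul, add_zero, hθ, Set.indicator_of_mem (shl_ell hY)]
      rw [h7, mul_one]
      have h8 := vd_ge b δ hδ0 hδ1 Y hY0
      have h9 : ∀ l ∈ Finset.range L, ENNReal.ofReal (l + 1) *
          (R l).indicator (fun Y => ENNReal.ofReal (trF (S Y))) Y ≤
          if Y ∈ R l then ENNReal.ofReal (2 * C1 * ψ' Y) else 0 := by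
        intro l hl
        split_ifs with hYl
        · rw [Set.indicator_of_mem hYl, ← ENNReal.ofReal_mul (by positivity)]
          refine ENNReal.ofReal_le_ofReal ?_
          have h10 := vd_slab b L l (Finset.mem_range.1 hl) Y hY hYl.2.2
          rw [← hδ] at h10
          calc ((l : ℝ) + 1) * trF (S Y) ≤ ((l : ℝ) + 1) * (C1 * ψ Y) := by gcongr
            _ ≤ (2 * (vd b δ Y + 3)) * (C1 * ψ Y) := by gcongr
            _ = _ := by rw [hψ']; ring
        · rw [Set.indicator_of_notMem hYl, mul_zero]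
      refine (Finset.sum_le_sum h9).trans ?_
      rw [← Finset.sum_filter, Finset.sum_const, nsmul_eq_mul]
      have h11 := slab_card ‖Y b‖ L (fun l => Y ∈ R l) (fun l hl => hl.2)
      have h12 : (((Finset.range L).filter fun l => Y ∈ R l).card : ENNReal) ≤
          ENNReal.ofReal 4 := by
        rw [show (4 : ℝ) = ((4 : ℕ) : ℝ) by norm_num, ENNReal.ofReal_natCast]
        exact_mod_cast h11
      calc _ ≤ ENNReal.ofReal 4 * ENNReal.ofReal (2 * C1 * ψ' Y) := by gcongr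
        _ = _ := by
            rw [← ENNReal.ofReal_mul (by norm_num)]
            congr 1
            ring
    · rw [Set.indicator_of_notMem hY]
      refine le_of_eq (Finset.sum_eq_zero fun l _ => ?_)
      rw [Set.indicator_of_notMem (fun h => hY h.1), mul_zero]
  calc ∑ l ∈ Finset.range L, ENNReal.ofReal (l + 1) * ∫⁻ Y in R l, ENNReal.ofReal (trF (S Y))
      = ∑ l ∈ Finset.range L, ∫⁻ Y, ENNReal.ofReal (l + 1) *
          (R l).indicator (fun Y => ENNReal.ofReal (trF (S Y))) Y := by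
        refine Finset.sum_congr rfl fun l _ => ?_
        rw [lintegral_const_mul' _ _ ENNReal.ofReal_ne_top, lintegral_indicator (hRm l)]
    _ = ∫⁻ Y, ∑ l ∈ Finset.range L, ENNReal.ofReal (l + 1) *
          (R l).indicator (fun Y => ENNReal.ofReal (trF (S Y))) Y := by
        rw [lintegral_finsetSum]
        intro l _
        exact (hTm.indicator (hRm l)).const_mul _
    _ ≤ ∫⁻ Y, (Shl (k + 1)).indicator
        (fun Y => ENNReal.ofReal (8 * C1 * (ψ' Y * θ (1 * ell Y + 0)))) Y :=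
        lintegral_mono hpt
    _ ≤ ∫⁻ Y, ENNReal.ofReal (8 * C1 * (ψ' Y * θ (1 * ell Y + 0))) :=
        lintegral_mono fun Y => Set.indicator_le_self _ _ Y
    _ = ENNReal.ofReal (∫ Y, 8 * C1 * (ψ' Y * θ (1 * ell Y + 0))) := by
        rw [ofReal_integral_eq_lintegral_ofReal (hint.const_mul _)]
        filter_upwards [hae] with Y hY
        have h5 := hψ'0 Y hY
        have h6 := hθ0 (1 * ell Y + 0)
        positivity
    _ ≤ _ := by
        refine ENNReal.ofReal_le_ofReal ?_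
        rw [integral_const_mul, hval, inv_one, one_mul, hθv]
        have e1 : (A + 3) * mo ≤ (3 * (1 + A)) * (|mo| + 1) := by
          have h1 : mo ≤ |mo| + 1 := by linarith [le_abs_self mo]
          have h2 : (0 : ℝ) ≤ |mo| + 1 := by positivity
          calc (A + 3) * mo ≤ (A + 3) * (|mo| + 1) := by gcongr
            _ ≤ (3 * (1 + A)) * (|mo| + 1) := by
                refine mul_le_mul_of_nonneg_right (by linarith) h2
        have e2 : Iint ψ' ≤ (3 * (1 + A)) * (|mo| + 1) := hI.trans e1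
        calc 8 * C1 * (2 * Real.log 2 * Iint ψ')
            ≤ 8 * C1 * (2 * Real.log 2 * ((3 * (1 + A)) * (|mo| + 1))) := by gcongr
          _ = _ := by ring

end Pool.Agent.H26.EM
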